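import Pool.Agent.Helper26_DEF.Main

/-!
# Finite intervals in the definability order of the definitions of truth are trivial

`LA f` is the language of arithmetic `0, 1, +, ·, <` with further function symbols of the arities
`f` (`f = []`: no further symbols; `f = [1]`: a symbol for exponentiation). `E` is any base theory in
this language that extends `PA⁻` (for example elementary arithmetic `EA`), `g` is the Gödel
numbering. `DefT E g` is the set `DEF` of all definitions of truth over `E` with the preorder
`α ≤ β ↔ α ⊲ β`, and `Antisymmetrization` is its quotient partial order.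

The proof shows that this partial order is dense: if `α ⊲ β` and not `β ⊲ α`, then there is an
arithmetical sentence `φ` (a Rosser sentence) such that neither `α ∧ φ` nor `α ∧ ¬ φ` defines `β`,
and `α ∧ (φ → β')`, where `β'` is a copy of `β` with fresh symbols, is strictly between `α` and `β`.
-/

set_option autoImplicit false

namespace Pool.Agent.Results.MP_106fe3_lc.FiniteIntervals

open FirstOrder FirstOrder.Language Pool.Agent.Helper26_DEF

/-- For all `a ≤ b` in the quotient of `DEF`, if the interval `[a, b]` is finite then `b ≤ a`. -/
theorem result (f : List ℕ) (E : (LA f).Theory) (hE : ExtPAMinus E) (g : (LA f).Sentence → ℕ)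
    (a b : Antisymmetrization (DefT E g) (· ≤ ·)) (hab : a ≤ b)
    (hfin : (Set.Icc a b).Finite) : b ≤ a := by
  by_contra hba
  have hd : DenselyOrdered (Antisymmetrization (DefT E g) (· ≤ ·)) := by
    refine ⟨fun x y hxy => ?_⟩
    induction x using Quotient.inductionOn' with
    | h x =>
    induction y using Quotient.inductionOn' with
    | h y =>
    have h1 : toAntisymmetrization (· ≤ ·) x < toAntisymmetrization (· ≤ ·) y := hxy
    rw [toAntisymmetrization_lt_toAntisymmetrization_iff] at h1
    obtain ⟨z, h2, h3⟩ := dense hE h1
    exact ⟨toAntisymmetrization (· ≤ ·) z,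
      toAntisymmetrization_lt_toAntisymmetrization_iff.2 h2,
      toAntisymmetrization_lt_toAntisymmetrization_iff.2 h3⟩
  exact Set.Icc_infinite (lt_of_le_not_ge hab hba) hfin

end Pool.Agent.Results.MP_106fe3_lc.FiniteIntervals
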